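import Mathlib
import Pool.Agent.TH170.QD.Use
import Pool.Agent.TH170.TT.Deg
import Pool.Agent.TH170.TT.Homs

/-!
# The Tate conjecture for the motives generated by the abelian varieties of almost all CM types of
arbitrary CM fields

Let `E` be a CM field of degree `2 g`; nothing is assumed about its Galois group. The automorphisms
of `ℂ` act on the set of the `2 g` complex embeddings of `E` through a finite group `G` (the Galois
group of the normal closure), and so on the space `V`, of dimension `g`, of the rational functions
on this set that change their sign under complex conjugation. There are `2 ^ g` CM types of `E`.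
Let `E i` be finitely many CM fields, of degrees `2 g i`, that are pairwise independent: for `i ≠ k`
and all complex embeddings `φ` of `E i` and `ψ` of `E k` some automorphism of `ℂ` is the identity on
`φ (E i)` and the complex conjugation on `ψ (E k)` (this is no condition for one field). There are
`2 ^ (∑ i, g i)` families `Φ` of CM types `Φ i` of the fields `E i`.

Let `A` be an abelian variety over a number field `F` which is, over a finite extension, isogenous to
a product `X = ∏ j, A (t j)` of copies of the abelian varieties `A i` of CM type `(E i, Φ i)`. Let
`V = V_ℓ(A) = ℚ_ℓ ⊗ H_1(X, ℚ)` be the `ℓ`-adic realization of `h_1(A)`, with the action `ρ` of the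
Galois group `G`, the cyclotomic character `χ` and the Weil pairing `ω` of a polarization
(`Realization`), and let `γ ∈ G` be the Frobenius element of one place of `F` above a prime number
`p ≠ ℓ` of good reduction that splits completely in the CM fields `E i`. It acts by the
multiplication by `π ∈ ∏ j, E (t j)`, with absolute values given by the theorem of Shimura and
Taniyama (`IsFrobenius`).

`TateForMotives Φ` says: for all `X`, all such data and all `s`, `t`, `c`, `d`, each homomorphism
`V ^ {⊗ s} (c) → V ^ {⊗ t} (d)` of `ℓ`-adic realizations that commutes with a subgroup of finite index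
of the Galois group is a linear combination, with coefficients in `ℚ_ℓ`, of homomorphisms given by
classes in `H^{s + t}(X ^ {s + t}, ℚ)` which are rational combinations of wedge products of Hodge
classes of degree two. By the theorem of Lefschetz on classes of type (1,1) these are algebraic; so
the map `Hom(M, M') ⊗ ℚ_ℓ → Hom_{G_F}(M_ℓ, M'_ℓ)` is surjective (and so bijective) for all pure
motives `M`, `M'` in the tensor category generated by `h_1(A)`. The family `Φ` is exceptional if
`TateForMotives Φ` does not hold.

The theorem bounds the number of the exceptional families: it is at most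
`2 ^ (∑ i, g i) * ∑ i, ρ (E i)`, where `ρ (E)` (`rho g φ₀`) is the sum of the numbers `w (W)`
(`weight g φ₀ W`) over the isotypic components `W` of `V` (`components E`):

* `w (W) = 0` if every minimal Galois-stable space in `W` contains a function with integral values
  whose sum over a CM type is odd;
* otherwise `w (W) = (2 d / (π g)) ^ (d / 2)` if `W` is itself a minimal space, of dimension `d`;
* otherwise `w (W)` is the smaller of `(53 λ d / g) ^ (c / 2)` (if
  `(10 ^ 4 + 10 λ) ^ 2 λ d ≤ 2 g`; replaced by `1` if not) and
  `8 (2 d / (π g)) ^ (d / 2) (10 ^ 4 + 10 λ + 6 √(d g)) ^ (d - c)`. Here `λ = log |G|`,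
  `d = dim S` for the minimal spaces `S` in `W`, and `c = e + d - h`, where `e` is the dimension of
  the space of the equivariant endomorphisms of `S` and `h` the dimension of the space of the
  functions in `S` that are invariant under the stabilizer of a complex embedding.

(If `S` is over `ℂ` the sum of `r` conjugate representations of degree `n` with the Schur index `m`,
which occur in `V` with the multiplicity `μ`, then `d = m r n`, `h = m r μ`, `e = m ^ 2 r`, and
`c = m r (n - μ + m)` is the codimension of the set of the degenerate elements. If `E` is normal
over `ℚ` then `μ = n` and `c = e = m ^ 2 r`.)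

Let `Q` be the number of the imaginary quadratic subfields of `E` and `N d` the number of the
components `W` that are minimal spaces of dimension `d`. The second part (`RhoEstimate`) is the
estimate `ρ (E) ≤ Q / √g + 2 (N 2 + 1) / g + 3 N 3 / g ^ (3 / 2) + ∑ w (W)`, where the last sum is
over the components `W` which are not minimal, and the term `Q / √g` is omitted if `g` is odd. The
third part (`NoMultipleComponents`) says that there are no such components if `E` is abelian over
`ℚ`, or if any two complex embeddings of `E` are exchanged by some automorphism of `ℂ` (for instance
`E = k F` for an imaginary quadratic field `k` and a totally real field `F` with this property, such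
as the fields of degree `binomial (n, m)` which belong to the sets with `m` elements of roots of a
polynomial of degree `n` with real roots and Galois group `S_n`). Always `N 3 ≤ g / 3`; if `E` is
cyclic over `ℚ` then `g` is odd or `Q = 0`, and `N 2 ≤ 2`, `N 3 = 0`, `ρ (E) ≤ 6 / g`.

The proof: the sign function of a degenerate CM type is orthogonal to a minimal Galois-stable space.
The number of the sign functions orthogonal to one space is estimated by a Fourier integral and the
inequality of Hölder. There are in general infinitely many minimal spaces isomorphic to `S`, but
modulo a prime number `p` that does not divide `|G|` there are only about `p ^ (h - e)` of them.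
-/

namespace Pool.Agent.Results.MP_3703a7_ag.AlmostAllCMTypes

open NumberField Module Pool.Agent.H204R3.CM Pool.Agent.H977R3.CM Pool.Agent.TH170.CM
  Pool.Agent.TH170.MF Pool.Agent.TH170.QD Pool.Agent.TH170.TT Pool.Agent.W547.KB
  Pool.Agent.W530.NF

/-- The Tate conjecture, by divisors, for the motives generated by `h_1` of all products of abelian
varieties of CM type `(E i, Φ i)` over number fields. -/
def TateForMotives {ι : Type} {E : ι → Type} [∀ i, Field (E i)] [∀ i, NumberField (E i)]
    [∀ i, IsCMField (E i)] (Φ : ∀ i, Set (E i →+* ℂ)) : Prop :=
  ∀ (hΦ : ∀ i, IsCMType (Φ i)) (J : Type) [Fintype J] (t : J → ι)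
    (K V : Type) [Field K] [CharZero K] [AddCommGroup V] [Module K V]
    (T : Realization (product hΦ t) K V) (w : AbsoluteValue ℂ ℝ) (q : ℕ)
    (π : (product hΦ t).H1) (γ : T.G), IsFrobenius T w q π γ → ∀ k, HomsDivisorial T k

/-- The families of CM types `Φ i` of the fields `E i` for which the Tate conjecture, by divisors,
fails for a motive generated by `h_1` of some product of abelian varieties of CM type
`(E i, Φ i)`. -/
def exceptionalFamilies {ι : Type} (E : ι → Type) [∀ i, Field (E i)] [∀ i, NumberField (E i)]
    [∀ i, IsCMField (E i)] : Set (∀ i, Set (E i →+* ℂ)) :=
  {Φ | (∀ i, IsCMType (Φ i)) ∧ ¬ TateForMotives Φ}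

/-- **The Tate conjecture for the motives generated by the abelian varieties of almost all CM types
of CM fields.** -/
theorem result :
    (∀ {ι : Type} [Fintype ι] (E : ι → Type) [∀ i, Field (E i)] [∀ i, NumberField (E i)]
      [∀ i, IsCMField (E i)] (g : ι → ℕ) (φ₀ : ∀ i, E i →+* ℂ), PairwiseIndep E →
      (∀ i, finrank ℚ (E i) = 2 * g i) →
      ((exceptionalFamilies E).ncard : ℝ) ≤ 2 ^ (∑ i, g i) * ∑ i, rho (g i) (φ₀ i)) ∧
    RhoEstimate ∧ NoMultipleComponents := by
  refine ⟨fun E _ _ _ g φ₀ hE hg => ncard_families_le E hg φ₀ TateForMotives ?_,
    rho_bounds⟩
  intro Φ hΦ hnd hΦ' J _ t K V _ _ _ _ T w q π γ hT k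
  exact homs_div hΦ' (levelFree_of_not_degenerate hΦ hE hnd k) t T w q π γ hT

end Pool.Agent.Results.MP_3703a7_ag.AlmostAllCMTypes
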