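import Mathlib
import Pool.Agent.TH127.SC.Char0

/-!
# The Tate conjecture for the pure motives generated by an abelian variety: one Frobenius element
# and the classes of embeddings of its CM fields

Let `A` be an abelian variety over a number field, of any dimension and with arbitrary
endomorphisms. Suppose that for ONE place of good reduction, with residue field of `p ^ a` elements,
the characteristic polynomial of the Frobenius element is the product of the minimal polynomials of
Weil numbers `π i` all of whose positive powers generate the CM fields `F i = ℚ(π i)`.

Two complex embeddings `x`, `y` of the fields `F i` are *flipped* if some automorphism of `ℂ` fixes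
one of them and conjugates the other, or maps `x` to `y` and `y` to the complex conjugate of `x`. The
*classes* are those of the equivalence relation generated by not being flipped; each class consists
of `b` pairs of conjugate embeddings. The deviations of the slopes of `π i` are the numbers
`2 v (π i) - a`, `v` the valuations over `p`; in the ordinary case they are `± a`. Assume that the
elements of a class are translates of each other and that every class is of one of the types:

* (odd type) the deviations of `π i` (`i` the index of the class) are odd multiples of one number, and
  `b` is `1` or a prime number, or `b` is odd and any two pairs of the class can be moved to any two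
  others, or `b` is a power of `2` and some automorphism acts on the class as an odd permutation;
* (sum type) `b` is a power of a prime number `r`, and for some identification of `ℂ` with the
  algebraic closure of `ℚ_p` the deviations on the class are multiples `c * n` of one number with
  integers `n`, whose sums over the half systems of the class are not divisible by `r`.

Then, for all primes `ℓ ≠ p`, all homomorphisms between the `ℓ`-adic realizations of the pure
motives `h_1(A) ^ {⊗ s} (c)` and `h_1(A) ^ {⊗ t} (d)` which commute with a subgroup of finite index
of the Galois group are linear combinations of products of Tate classes of degree two; by the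
theorem of Faltings these are realizations of morphisms of motives. So the Tate conjecture, that is
surjectivity of `Hom(M, M') ⊗ ℚ_ℓ → Hom_{G_K}(M_ℓ, M'_ℓ)`, holds for all pure motives `M`, `M'` in
the tensor category generated by `h_1(A)`.

For example it holds if `A` is ordinary at the place and the Frobenius polynomial is irreducible, also
over all extensions of the residue field, of degree `2 n`, where `n` is `1` or a prime number or a
product of two prime numbers, and in the last case the embeddings of the CM field do not form one
class.

In the Lean statement `V` is the rational Tate module with the action `ρ` of the Galois group, `ω`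
is the Weil pairing of a polarization, `χ` is the cyclotomic character and `γ` the Frobenius
element.
-/

namespace Pool.Agent.Results.MP_3703a7_ag.FrobeniusOddClasses

open NumberField Module Pool.Agent.H204R3.GP IntermediateField Pool.Agent.TH127.SC

theorem result (p : ℕ) [Fact p.Prime] (a : ℕ) (ha : 0 < a) :
    (∀ (ℓ : ℕ) [Fact ℓ.Prime] {ι : Type} [Fintype ι] (F : ι → Type) [∀ i, Field (F i)]
      [∀ i, NumberField (F i)] [∀ i, IsCMField (F i)] (π : ∀ i, F i),
      (∀ i, IsIntegral ℤ (π i)) → (∀ i, ℚ⟮π i⟯ = ⊤) →
      (∀ i, π i * IsCMField.complexConj (F i) (π i) = (p : F i) ^ a) →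
      SlopeCondition p a π →
      ∀ {V : Type} [AddCommGroup V] [Module ℚ_[ℓ] V] [FiniteDimensional ℚ_[ℓ] V]
        {Γ : Type} [Group Γ] (ρ : Representation ℚ_[ℓ] Γ V) (χ : Γ →* ℚ_[ℓ])
        (ω : V →ₗ[ℚ_[ℓ]] V →ₗ[ℚ_[ℓ]] ℚ_[ℓ]), (∀ v, ω v v = 0) →
        (∀ u, (∀ v, ω v u = 0) → u = 0) → (∀ s u v, ω (ρ s u) (ρ s v) = χ s * ω u v) →
        FiniteIndexSemisimple ρ → ∀ γ : Γ, χ γ = (p : ℚ_[ℓ]) ^ a →
        (ρ γ).charpoly = ∏ i, (minpoly ℚ (π i)).map (algebraMap ℚ ℚ_[ℓ]) →
        HomsGeneratedInDegreeTwo ρ χ ω) ∧
    ∀ {E : Type} [Field E] [NumberField E] [IsCMField E], SmallDegree E →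
      ∀ π : E, OddDeviations (K := fun _ : Unit => E) p (fun _ => a) (fun _ => π) () →
        (∀ s : ℕ, 0 < s → ℚ⟮π ^ s⟯ = ⊤) → SlopeCondition p a (fun _ : Unit => π) :=
  ⟨fun _ _ _ _ _ _ _ _ _ hint hgen hw hcl _ _ _ _ _ _ ρ χ ω halt hnd hωρ hss γ hχ hγ =>
    homs_of_classes ha hint hgen hw (Or.inr hcl) ρ χ ω halt hnd hωρ hss γ hχ hγ,
    fun hE π hodd hπ => slopeCondition_of_smallDegree hE π hodd hπ⟩

end Pool.Agent.Results.MP_3703a7_ag.FrobeniusOddClasses
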