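import Pool.Agent.TH118.SG.Family

/-!
# The Tate conjecture for products with powers of varieties with a place of small finite inertia

Let `W` be a Weil cohomology theory with algebraically closed coefficients (étale cohomology with
coefficients in the closure of `ℚ_ℓ`) on a class of smooth proper varieties over the algebraic closure
of a number field `F` (or of a finitely generated field), with an action of a group `Γ` (the Galois
group of `F`) on the cohomology of the varieties under consideration.

Let `X_i` be varieties of odd dimension for which numerical and homological equivalence coincide,
whose transcendental cohomology `T_i` (the orthogonal complement of all algebraic classes) is
concentrated in the middle degree and irreducible under all subgroups of finite index of `Γ`. For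
every `i` let there be one element `g_i` of `Γ` which acts trivially on the cohomology of `Z`, on the
cohomology of the `X_j` with `j ≠ i` and on the Tate twists, and which acts on `T_i`

* as a unipotent map different from the identity, with `(g_i - 1) ^ 2 = 0` and of rank at most two
  (example: an element of the inertia group at a place `v_i` where `X_i` has one or two
  ordinary double points and `Z` and the other `X_j` have good reduction), or
* with finite order, such that for `a = 1` or `a = -1` all eigenvalues except `a` are simple and
  `c ^ 2 < 2 d`, where `d` is the dimension of the eigenspace for `a` and `c` is its codimension,
  which is not zero (example: `v_i` is a place at which the model of `X_i` is smooth except for one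
  isolated singularity with the equation `x_0 ^ a_0 + ⋯ + x_n ^ a_n = t`, `n = dim X_i` and `t` of
  valuation prime to the `a_i`, of Brieskorn type with simple eigenvalues of the monodromy:
  for instance the singularities `A_{2m}`, `E_6`, `E_8` in odd dimension). In this case let some
  element of `Γ` (a Frobenius element) have two eigenvalues on `T_i` whose quotient is not a root of
  unity; this is automatic for the Galois representation, as otherwise the Lie algebra of its image
  would consist of operators with just one eigenvalue.

Then the Tate conjecture, for cycles of all codimensions, holds for the product of `Z` with arbitrary
powers of the `X_i` if and only if it holds for `Z`. In particular it holds for the products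
of the powers of the `X_i`, where `Z` is a point.

The proof: let `L` be the Lie algebra of the operators on `T = T_i` which kill all the multilinear
maps from `T` to the cohomology of the other factors which are equivariant under some subgroup of
finite index. The Jordan decomposition of the Frobenius element and an additive function on the
group generated by its eigenvalues give an operator `Y` on `T`, not a scalar, with an operator
`Y'` on the cohomology of the other factors, such that the pair is compatible with all these
multilinear maps; the components of `Y` for the eigenvalues of the conjugation by `g`
different from one are in `L`, as `g` acts trivially on the other factors. An argument with the
irreducibility of `T` shows that the eigenspace of `g` for `a` is spanned by the images of the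
eigenvectors for the other eigenvalues under the elements of `L` which are eigenvectors for the
conjugation; as `c ^ 2 < 2 d`, some of these eigenspaces of `L` is so large that it contains an element
of square zero and rank one or two. So `L` is the whole symplectic Lie algebra, and by the first
fundamental theorem the Tate classes are combinations of products of algebraic classes on the
factors `X`, of the transcendental parts of the diagonals of pairs of factors `X` and of Tate classes
of the remaining factor.
-/

universe u

namespace Pool.Agent.Results.MP_3703a7_ag.SmallRankProducts

open Pool.Agent.H914 Pool.Agent.H281R3.HT Pool.Agent.TH125.Gal Pool.Agent.TH118.SG

/-- **The Tate conjecture for products with powers of varieties with an element of small rank.** -/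
theorem result {k : Type u} [Field k] {𝒱 : VarClass k} {ops : CycleOps 𝒱}
    (W : WeilCohomology.{u, 0} ops) [IsAlgClosed W.K] {Γ : Type} [Group Γ] (χ : Γ →* W.Kˣ)
    {ι : Type} (X : ι → GVar W Γ) (Z : GVar W Γ) (h : SmallRankFamily χ X Z) (S : Set ι)
    (Y : GVar W Γ) (hY : GTower X Z S Y) : TateConjecture χ Y ↔ TateConjecture χ Z :=
  tate_small h hY

end Pool.Agent.Results.MP_3703a7_ag.SmallRankProducts
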