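import Pool.Agent.TH125.Squ.Pub

/-!
# The Tate conjecture for `X × X` implies it for all powers of `X`

Let `W` be a Weil cohomology theory on a class of smooth proper varieties (over the algebraic closure
of a number field or of a finitely generated field `F`), with an action of a group `Γ` (the Galois
group of `F`) on the cohomology of the members of a class `G` of varieties closed under products.

Let `X` be a variety of odd dimension whose transcendental cohomology `T` (the orthogonal complement
of all algebraic classes) is concentrated in the middle degree and spanned by vanishing classes:
classes `δ` such that an element of `Γ` acts on `T` by a Picard-Lefschetz formula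
`t ↦ t + c tr(δ t) δ` and trivially on the cohomology of `Z` and on the Tate twists. (Example: `δ` is
a conjugate of the vanishing cycle at a place of `F` at which `X` has a single ordinary double point
and `Z` has good reduction. If `T` is an irreducible representation of `Γ` one such place is
enough; irreducibility under open subgroups is not assumed.)

Then the Tate conjecture for `X × X`, in the middle codimension only, implies that the Tate
conjecture holds for the product of any power of `X` with `Z`, in all codimensions, if and only if
it holds for `Z`. (The case `Z = X'^m × Z'` allows several varieties `X`.) So Tate's conjecture for
the endomorphisms of the motive of `X` implies Tate's conjecture for all motives in the tensor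
category generated by it.

The proof: call two vanishing classes connected if they are joined by a chain of vanishing classes
such that consecutive ones are not orthogonal. The spans `U_i` of the connected components are
orthogonal to each other and permuted by `Γ`, so the projectors to the `U_i` commute with a subgroup
of finite index and are algebraic by the Tate conjecture for `X × X`. The logarithms of the
transvections generate the Lie algebra `∏ sp(U_i)`, and the first fundamental theorem for this Lie
algebra gives the Tate classes.
-/

universe u v w

namespace Pool.Agent.Results.MP_3703a7_ag.SquareSuffices

open Pool.Agent.H914 Pool.Agent.TH125.Gal Pool.Agent.TH125.Squ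

/-- **The Tate conjecture for `X × X` implies it for all powers of `X` (times `Z`).** -/
theorem result {k : Type u} [Field k] {𝒱 : VarClass k} {ops : CycleOps 𝒱}
    (W : WeilCohomology.{u, v} ops) {Γ : Type w} [Group Γ] (χ : Γ →* W.Kˣ) (G : Set (GVar W Γ))
    (hG : GaloisClass χ G) (X Z : GVar W Γ) (hX : X ∈ G) (hZ : Z ∈ G)
    (h : SpannedByVanishing χ X Z) (hS : TateSquare χ X) (n : ℕ) (Y : GVar W Γ)
    (hY : IsPowProd X n Z Y) : TateConjecture χ Y ↔ TateConjecture χ Z :=
  tate_iff hG hX hZ h hS hY

end Pool.Agent.Results.MP_3703a7_ag.SquareSuffices
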